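import Pool.Agent.H548.SC.Defs

/-!
SC-COMB: the combinatorial lemma on sets of at least five cells of a grid
(piece of the project of helper548 on MP_c59e09_co).
-/

set_option autoImplicit false
open Classical Finset

namespace Pool.Agent.R793.SC
open Pool.Agent.H548.SC

variable {ι κ : Type}

theorem gen_symm {x y : ι × κ} (h : gen x y) : gen y x := ⟨fun e => h.1 e.symm, fun e => h.2 e.symm⟩

/-- Number of elements of `W` in general position to `x`. -/
noncomputable def gc (W : Finset (ι × κ)) (x : ι × κ) : ℕ := (W.filter (fun y => gen x y)).card

section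
variable [Fintype ι] [Fintype κ]

theorem G2_eq (W : Finset (ι × κ)) : G2 W = ∑ x ∈ W, gc W x := by
  unfold G2 gc
  rw [Finset.card_filter, Finset.sum_product]
  refine Finset.sum_congr rfl fun x _ => ?_
  rw [Finset.card_filter]

theorem sg_pos {W A B : Finset (ι × κ)} (hA : isRow A) (hB : isCol B) (hA2 : 2 ≤ A.card)
    (hB2 : 2 ≤ B.card) (hd : Disjoint A B) (hu : A ∪ B = W) : 1 ≤ sg W := by
  unfold sg
  refine Finset.card_pos.mpr ⟨(A, B), ?_⟩
  simp only [Finset.mem_filter, Finset.mem_univ, true_and]
  exact ⟨hA, hB, hA2, hB2, hd, hu⟩

theorem nu_le (W : Finset (ι × κ)) : nu W ≤ W.card := by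
  unfold nu
  exact Finset.card_filter_le _ _

theorem nu_succ_le {W : Finset (ι × κ)} {y : ι × κ} (hy : y ∈ W)
    (h : isRow (W.erase y) ∨ isCol (W.erase y)) : nu W + 1 ≤ W.card := by
  unfold nu
  have h1 : (W.filter (fun x => ¬ isRow (W.erase x) ∧ ¬ isCol (W.erase x))) ⊆ W.erase y := by
    intro x hx
    rw [Finset.mem_filter] at hx
    rw [Finset.mem_erase]
    refine ⟨?_, hx.1⟩
    rintro rfl
    rcases h with h | h
    · exact hx.2.1 h
    · exact hx.2.2 h
  have h2 := Finset.card_le_card h1
  have h3 := Finset.card_erase_add_one hy
  omega

theorem nu_zero {W : Finset (ι × κ)} (h : ∀ y ∈ W, isRow (W.erase y) ∨ isCol (W.erase y)) :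
    nu W = 0 := by
  unfold nu
  rw [Finset.card_eq_zero, Finset.filter_eq_empty_iff]
  intro x hx hh
  rcases h x hx with h | h
  · exact hh.1 h
  · exact hh.2 h

theorem isRow_of {S : Finset (ι × κ)} (i : ι) (hS : S.Nonempty) (h : ∀ x ∈ S, x.1 = i) :
    isRow S := ⟨hS, fun x hx y hy => (h x hx).trans (h y hy).symm⟩

theorem isCol_of {S : Finset (ι × κ)} (k : κ) (hS : S.Nonempty) (h : ∀ x ∈ S, x.2 = k) :
    isCol S := ⟨hS, fun x hx y hy => (h x hx).trans (h y hy).symm⟩

/-- Decomposition of `W` seen from `x`. -/
theorem decomp {W : Finset (ι × κ)} {x : ι × κ} (hx : x ∈ W) :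
    ∃ A B Y : Finset (ι × κ),
      (∀ u, u ∈ A ↔ u ∈ W ∧ u.1 = x.1 ∧ u.2 ≠ x.2) ∧
      (∀ u, u ∈ B ↔ u ∈ W ∧ u.1 ≠ x.1 ∧ u.2 = x.2) ∧
      (∀ u, u ∈ Y ↔ u ∈ W ∧ u.1 ≠ x.1 ∧ u.2 ≠ x.2) ∧
      gc W x = Y.card ∧
      (∀ f : ι × κ → ℕ, ∑ u ∈ W, f u = f x + ∑ u ∈ A, f u + ∑ u ∈ B, f u + ∑ u ∈ Y, f u) := by
  refine ⟨W.filter (fun u => u.1 = x.1 ∧ u.2 ≠ x.2), W.filter (fun u => u.1 ≠ x.1 ∧ u.2 = x.2),
    W.filter (fun u => u.1 ≠ x.1 ∧ u.2 ≠ x.2), ?_, ?_, ?_, ?_, ?_⟩
  · intro u; rw [Finset.mem_filter]
  · intro u; rw [Finset.mem_filter]
  · intro u; rw [Finset.mem_filter]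
  · unfold gc
    congr 1
    ext u
    rw [Finset.mem_filter, Finset.mem_filter]
    constructor
    · rintro ⟨h, h1, h2⟩; exact ⟨h, fun e => h1 e.symm, fun e => h2 e.symm⟩
    · rintro ⟨h, h1, h2⟩; exact ⟨h, fun e => h1 e.symm, fun e => h2 e.symm⟩
  · intro f
    rw [Finset.sum_filter, Finset.sum_filter, Finset.sum_filter]
    have h0 : f x = ∑ u ∈ W, if u = x then f u else 0 := by
      rw [Finset.sum_ite_eq' W x f]; simp [hx]
    rw [h0, ← Finset.sum_add_distrib, ← Finset.sum_add_distrib, ← Finset.sum_add_distrib]
    refine Finset.sum_congr rfl fun u _ => ?_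
    have hux : u = x ↔ u.1 = x.1 ∧ u.2 = x.2 := Prod.ext_iff
    by_cases h1 : u.1 = x.1 <;> by_cases h2 : u.2 = x.2 <;> simp [hux, h1, h2]

theorem stmtComb : StmtComb := by
  intro ι κ _ _ W hW
  by_cases hall : ∀ x ∈ W, 2 ≤ gc W x
  · have h1 : W.card * 2 ≤ G2 W := by
      rw [G2_eq]
      exact Finset.card_nsmul_le_sum W _ 2 hall
    have h2 := nu_le W
    split_ifs <;> omega
  push Not at hall
  obtain ⟨x, hx, hgx⟩ := hall
  obtain ⟨A, B, Y, hA, hB, hY, hgY, hsum⟩ := decomp hx
  have hcard : W.card = 1 + A.card + B.card + Y.card := by
    have := hsum (fun _ => 1)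
    simpa using this
  -- elements of `A` and `B` are in general position
  have hAB : ∀ u ∈ A, ∀ v ∈ B, gen u v := by
    intro u hu v hv
    rw [hA] at hu; rw [hB] at hv
    refine ⟨?_, ?_⟩
    · intro e; exact hv.2.1 (e.symm.trans hu.2.1)
    · intro e; exact hu.2.2 (e.trans hv.2.2)
  have hdAB : Disjoint A B := by
    rw [Finset.disjoint_left]
    intro u hu hv
    exact (hAB u hu u hv).1 rfl
  have hG2 : G2 W = gc W x + ∑ u ∈ A, gc W u + ∑ u ∈ B, gc W u + ∑ u ∈ Y, gc W u := by
    rw [G2_eq]; exact hsum _
  have hxA : x ∉ A := by rw [hA]; exact fun h => h.2.2 rfl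
  have hxB : x ∉ B := by rw [hB]; exact fun h => h.2.1 rfl
  have hsp0 : 0 ≤ (if spR W ∨ spC W then 2 else 0) := Nat.zero_le _
  rcases Nat.eq_zero_or_pos Y.card with hY0 | hYpos
  · -- `Y` empty
    have hYe : Y = ∅ := Finset.card_eq_zero.mp hY0
    have hWm : ∀ u ∈ W, u = x ∨ u ∈ A ∨ u ∈ B := by
      intro u hu
      by_cases h1 : u.1 = x.1
      · by_cases h2 : u.2 = x.2
        · left; exact Prod.ext h1 h2
        · right; left; rw [hA]; exact ⟨hu, h1, h2⟩
      · by_cases h2 : u.2 = x.2
        · right; right; rw [hB]; exact ⟨hu, h1, h2⟩
        · exfalso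
          have : u ∈ Y := by rw [hY]; exact ⟨hu, h1, h2⟩
          rw [hYe] at this
          exact absurd this (Finset.notMem_empty u)
    have her : ∀ y ∈ W, (W.erase y).Nonempty := by
      intro y hy
      rw [← Finset.card_pos, Finset.card_erase_of_mem hy]
      omega
    rcases Nat.eq_zero_or_pos A.card with hA0 | hApos
    · -- a column
      have hAe : A = ∅ := Finset.card_eq_zero.mp hA0
      have : nu W = 0 := by
        refine nu_zero fun y hy => Or.inr (isCol_of x.2 (her y hy) ?_)
        intro u hu
        have hu' := Finset.mem_of_mem_erase hu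
        rcases hWm u hu' with h | h | h
        · rw [h]
        · rw [hAe] at h; exact absurd h (Finset.notMem_empty u)
        · rw [hB] at h; exact h.2.2
      omega
    rcases Nat.eq_zero_or_pos B.card with hB0 | hBpos
    · -- a row
      have hBe : B = ∅ := Finset.card_eq_zero.mp hB0
      have : nu W = 0 := by
        refine nu_zero fun y hy => Or.inl (isRow_of x.1 (her y hy) ?_)
        intro u hu
        have hu' := Finset.mem_of_mem_erase hu
        rcases hWm u hu' with h | h | h
        · rw [h]
        · rw [hA] at h; exact h.2.1
        · rw [hBe] at h; exact absurd h (Finset.notMem_empty u)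
      omega
    have hgA : ∑ u ∈ A, gc W u ≥ A.card * B.card := by
      refine Finset.card_nsmul_le_sum A _ B.card fun u hu => ?_
      refine Finset.card_le_card fun v hv => ?_
      rw [Finset.mem_filter]
      exact ⟨((hB v).mp hv).1, hAB u hu v hv⟩
    have hgB : ∑ u ∈ B, gc W u ≥ B.card * A.card := by
      refine Finset.card_nsmul_le_sum B _ A.card fun u hu => ?_
      refine Finset.card_le_card fun v hv => ?_
      rw [Finset.mem_filter]
      exact ⟨((hA v).mp hv).1, gen_symm (hAB v hv u hu)⟩
    have hG : 2 * (A.card * B.card) ≤ G2 W := by
      rw [hG2]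
      have : B.card * A.card = A.card * B.card := Nat.mul_comm _ _
      omega
    have hsg : 1 ≤ sg W := by
      by_cases ha2 : 2 ≤ A.card
      · -- `A` and `insert x B`
        refine sg_pos (A := A) (B := insert x B) ?_ ?_ ha2 ?_ ?_ ?_
        · exact isRow_of x.1 (Finset.card_pos.mp hApos) fun u hu => ((hA u).mp hu).2.1
        · refine isCol_of x.2 (Finset.insert_nonempty _ _) fun u hu => ?_
          rcases Finset.mem_insert.mp hu with h | h
          · rw [h]
          · exact ((hB u).mp h).2.2
        · rw [Finset.card_insert_of_notMem hxB]; omega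
        · rw [Finset.disjoint_insert_right]; exact ⟨hxA, hdAB⟩
        · ext u
          rw [Finset.mem_union, Finset.mem_insert]
          constructor
          · rintro (h | h | h)
            · exact ((hA u).mp h).1
            · rw [h]; exact hx
            · exact ((hB u).mp h).1
          · intro h
            rcases hWm u h with h | h | h
            · exact Or.inr (Or.inl h)
            · exact Or.inl h
            · exact Or.inr (Or.inr h)
      · refine sg_pos (A := insert x A) (B := B) ?_ ?_ ?_ ?_ ?_ ?_
        · refine isRow_of x.1 (Finset.insert_nonempty _ _) fun u hu => ?_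
          rcases Finset.mem_insert.mp hu with h | h
          · rw [h]
          · exact ((hA u).mp h).2.1
        · exact isCol_of x.2 (Finset.card_pos.mp hBpos) fun u hu => ((hB u).mp hu).2.2
        · rw [Finset.card_insert_of_notMem hxA]; omega
        · omega
        · rw [Finset.disjoint_insert_left]; exact ⟨hxB, hdAB⟩
        · ext u
          rw [Finset.mem_union, Finset.mem_insert]
          constructor
          · rintro ((h | h) | h)
            · rw [h]; exact hx
            · exact ((hA u).mp h).1
            · exact ((hB u).mp h).1
          · intro h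
            rcases hWm u h with h | h | h
            · exact Or.inl (Or.inl h)
            · exact Or.inl (Or.inr h)
            · exact Or.inr h
    have hnu : nu W ≤ A.card * B.card + 1 := by
      by_cases ha : A.card = 1
      · -- the element of `A`
        obtain ⟨z, hz⟩ := Finset.card_eq_one.mp ha
        have hzW : z ∈ W := ((hA z).mp (by rw [hz]; exact Finset.mem_singleton_self z)).1
        have := nu_succ_le hzW (Or.inr (isCol_of x.2 (her z hzW) fun u hu => by
          have hu1 := (Finset.mem_erase.mp hu).1
          have hu2 := (Finset.mem_erase.mp hu).2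
          rcases hWm u hu2 with h | h | h
          · rw [h]
          · rw [hz, Finset.mem_singleton] at h; exact absurd h hu1
          · exact ((hB u).mp h).2.2))
        rw [ha]; omega
      · by_cases hb : B.card = 1
        · obtain ⟨z, hz⟩ := Finset.card_eq_one.mp hb
          have hzW : z ∈ W := ((hB z).mp (by rw [hz]; exact Finset.mem_singleton_self z)).1
          have := nu_succ_le hzW (Or.inl (isRow_of x.1 (her z hzW) fun u hu => by
            have hu1 := (Finset.mem_erase.mp hu).1
            have hu2 := (Finset.mem_erase.mp hu).2
            rcases hWm u hu2 with h | h | h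
            · rw [h]
            · exact ((hA u).mp h).2.1
            · rw [hz, Finset.mem_singleton] at h; exact absurd h hu1))
          rw [hb]; omega
        · have h1 := nu_le W
          obtain ⟨a, ha'⟩ : ∃ a, A.card = a + 2 := ⟨A.card - 2, by omega⟩
          obtain ⟨b, hb'⟩ : ∃ b, B.card = b + 2 := ⟨B.card - 2, by omega⟩
          rw [hcard, hY0, ha', hb'] at h1
          rw [ha', hb']
          nlinarith [Nat.zero_le (a * b)]
    omega
  · -- `Y` a singleton
    have hY1 : Y.card = 1 := by omega
    obtain ⟨y, hYy⟩ := Finset.card_eq_one.mp hY1
    have hyW : y ∈ W ∧ y.1 ≠ x.1 ∧ y.2 ≠ x.2 := (hY y).mp (by rw [hYy]; exact Finset.mem_singleton_self y)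
    have hxy : gen x y := ⟨fun e => hyW.2.1 e.symm, fun e => hyW.2.2 e.symm⟩
    have hWm : ∀ u ∈ W, u = x ∨ u ∈ A ∨ u ∈ B ∨ u = y := by
      intro u hu
      by_cases h1 : u.1 = x.1
      · by_cases h2 : u.2 = x.2
        · left; exact Prod.ext h1 h2
        · right; left; rw [hA]; exact ⟨hu, h1, h2⟩
      · by_cases h2 : u.2 = x.2
        · right; right; left; rw [hB]; exact ⟨hu, h1, h2⟩
        · right; right; right
          have : u ∈ Y := by rw [hY]; exact ⟨hu, h1, h2⟩
          rw [hYy] at this
          exact Finset.mem_singleton.mp this
    have hyA : y ∉ A := by rw [hA]; exact fun h => hyW.2.1 h.2.1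
    have hyB : y ∉ B := by rw [hB]; exact fun h => hyW.2.2 h.2.2
    have her : ∀ y ∈ W, (W.erase y).Nonempty := by
      intro y hy
      rw [← Finset.card_pos, Finset.card_erase_of_mem hy]
      omega
    -- elements of `A`, `B` in general position to `y`
    have hA2 : A.card ≤ (A.filter (fun u => gen y u)).card + 1 := by
      rw [← Finset.card_filter_add_card_filter_not (s := A) (fun u => gen y u)]
      have : (A.filter (fun u => ¬ gen y u)) ⊆ {(x.1, y.2)} := by
        intro u hu
        rw [Finset.mem_filter] at hu
        rw [Finset.mem_singleton]
        have h1 := ((hA u).mp hu.1).2.1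
        refine Prod.ext h1 ?_
        by_contra h2
        exact hu.2 ⟨fun e => hyW.2.1 (e.trans h1), fun e => h2 e.symm⟩
      have := Finset.card_le_card this
      rw [Finset.card_singleton] at this
      omega
    have hB2 : B.card ≤ (B.filter (fun u => gen y u)).card + 1 := by
      rw [← Finset.card_filter_add_card_filter_not (s := B) (fun u => gen y u)]
      have : (B.filter (fun u => ¬ gen y u)) ⊆ {(y.1, x.2)} := by
        intro u hu
        rw [Finset.mem_filter] at hu
        rw [Finset.mem_singleton]
        have h1 := ((hB u).mp hu.1).2.2
        refine Prod.ext ?_ h1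
        by_contra h2
        exact hu.2 ⟨fun e => h2 e.symm, fun e => hyW.2.2 (e.trans h1)⟩
      have := Finset.card_le_card this
      rw [Finset.card_singleton] at this
      omega
    set a2 := (A.filter (fun u => gen y u)).card with ha2
    set b2 := (B.filter (fun u => gen y u)).card with hb2
    have hgA : A.card * B.card + a2 ≤ ∑ u ∈ A, gc W u := by
      have h1 : ∑ u ∈ A, (B.card + if gen y u then 1 else 0) ≤ ∑ u ∈ A, gc W u := by
        refine Finset.sum_le_sum fun u hu => ?_
        by_cases hyu : gen y u
        · rw [if_pos hyu, ← Finset.card_insert_of_notMem hyB]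
          refine Finset.card_le_card fun v hv => ?_
          rw [Finset.mem_filter]
          rcases Finset.mem_insert.mp hv with h | h
          · rw [h]; exact ⟨hyW.1, gen_symm hyu⟩
          · exact ⟨((hB v).mp h).1, hAB u hu v h⟩
        · rw [if_neg hyu, add_zero]
          refine Finset.card_le_card fun v hv => ?_
          rw [Finset.mem_filter]
          exact ⟨((hB v).mp hv).1, hAB u hu v hv⟩
      rw [Finset.sum_add_distrib, Finset.sum_const, smul_eq_mul, ← Finset.card_filter] at h1
      exact h1
    have hgB : A.card * B.card + b2 ≤ ∑ u ∈ B, gc W u := by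
      have h1 : ∑ u ∈ B, (A.card + if gen y u then 1 else 0) ≤ ∑ u ∈ B, gc W u := by
        refine Finset.sum_le_sum fun u hu => ?_
        by_cases hyu : gen y u
        · rw [if_pos hyu, ← Finset.card_insert_of_notMem hyA]
          refine Finset.card_le_card fun v hv => ?_
          rw [Finset.mem_filter]
          rcases Finset.mem_insert.mp hv with h | h
          · rw [h]; exact ⟨hyW.1, gen_symm hyu⟩
          · exact ⟨((hA v).mp h).1, gen_symm (hAB v h u hu)⟩
        · rw [if_neg hyu, add_zero]
          refine Finset.card_le_card fun v hv => ?_
          rw [Finset.mem_filter]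
          exact ⟨((hA v).mp hv).1, gen_symm (hAB v hv u hu)⟩
      rw [Finset.sum_add_distrib, Finset.sum_const, smul_eq_mul, ← Finset.card_filter,
        Nat.mul_comm] at h1
      exact h1
    have hgy : 1 + a2 + b2 ≤ gc W y := by
      have hsub : insert x ((A.filter (fun u => gen y u)) ∪ (B.filter (fun u => gen y u))) ⊆
          W.filter (fun u => gen y u) := by
        intro u hu
        rw [Finset.mem_filter]
        rcases Finset.mem_insert.mp hu with h | h
        · rw [h]; exact ⟨hx, gen_symm hxy⟩
        · rcases Finset.mem_union.mp h with h | h
          · rw [Finset.mem_filter] at h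
            exact ⟨((hA u).mp h.1).1, h.2⟩
          · rw [Finset.mem_filter] at h
            exact ⟨((hB u).mp h.1).1, h.2⟩
      have h1 := Finset.card_le_card hsub
      rw [Finset.card_insert_of_notMem, Finset.card_union_of_disjoint] at h1
      · unfold gc
        omega
      · exact Finset.disjoint_of_subset_left (Finset.filter_subset _ _)
          (Finset.disjoint_of_subset_right (Finset.filter_subset _ _) hdAB)
      · rw [Finset.mem_union, Finset.mem_filter, Finset.mem_filter]
        rintro (h | h)
        · exact hxA h.1
        · exact hxB h.1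
    have hG : 2 * (A.card * B.card + 1 + a2 + b2) ≤ G2 W := by
      rw [hG2, hgY, hY1, hYy, Finset.sum_singleton]
      omega
    rcases Nat.eq_zero_or_pos B.card with hB0 | hBpos
    · -- `B` empty: `W` minus `y` is in a row
      have hBe : B = ∅ := Finset.card_eq_zero.mp hB0
      have hrow : ∀ u ∈ W.erase y, u.1 = x.1 := by
        intro u hu
        have hu1 := (Finset.mem_erase.mp hu).1
        have hu2 := (Finset.mem_erase.mp hu).2
        rcases hWm u hu2 with h | h | h | h
        · rw [h]
        · exact ((hA u).mp h).2.1
        · rw [hBe] at h; exact absurd h (Finset.notMem_empty u)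
        · exact absurd h hu1
      have hnu := nu_succ_le hyW.1 (Or.inl (isRow_of x.1 (her y hyW.1) hrow))
      rw [hB0] at hG hcard
      by_cases hae : a2 = A.card
      · omega
      · -- an element of `A` aligned with `y`
        have hex : ∃ u ∈ A, ¬ gen y u := by
          by_contra hcon
          push Not at hcon
          exact hae (by rw [ha2, Finset.filter_true_of_mem hcon])
        obtain ⟨u, huA, hyu⟩ := hex
        have hu := (hA u).mp huA
        have hu2 : u.2 = y.2 := by
          by_contra h2
          exact hyu ⟨fun e => hyW.2.1 (e.trans hu.2.1), fun e => h2 e.symm⟩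
        have huy : u ≠ y := by rintro rfl; exact hyA huA
        have hsg : 1 ≤ sg W := by
          refine sg_pos (A := (W.erase y).erase u) (B := {u, y}) ?_ ?_ ?_ ?_ ?_ ?_
          · refine isRow_of x.1 ?_ fun v hv => hrow v (Finset.mem_of_mem_erase hv)
            refine ⟨x, ?_⟩
            rw [Finset.mem_erase, Finset.mem_erase]
            exact ⟨fun e => hxA (e ▸ huA), fun e => hxy.1 (by rw [← e]), hx⟩
          · refine isCol_of y.2 ⟨u, by simp⟩ fun v hv => ?_
            rw [Finset.mem_insert, Finset.mem_singleton] at hv
            rcases hv with h | h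
            · rw [h, hu2]
            · rw [h]
          · rw [Finset.card_erase_of_mem (Finset.mem_erase.mpr ⟨huy, hu.1⟩),
              Finset.card_erase_of_mem hyW.1]
            omega
          · rw [Finset.card_pair huy]
          · rw [Finset.disjoint_left]
            intro v hv hv2
            rw [Finset.mem_erase, Finset.mem_erase] at hv
            rw [Finset.mem_insert, Finset.mem_singleton] at hv2
            rcases hv2 with h | h
            · exact hv.1 h
            · exact hv.2.1 h
          · ext v
            rw [Finset.mem_union, Finset.mem_erase, Finset.mem_erase, Finset.mem_insert,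
              Finset.mem_singleton]
            constructor
            · rintro (h | h | h)
              · exact h.2.2
              · rw [h]; exact hu.1
              · rw [h]; exact hyW.1
            · intro h
              by_cases h1 : v = u
              · exact Or.inr (Or.inl h1)
              · by_cases h2 : v = y
                · exact Or.inr (Or.inr h2)
                · exact Or.inl ⟨h1, h2, h⟩
        omega
    rcases Nat.eq_zero_or_pos A.card with hA0 | hApos
    · -- `A` empty: `W` minus `y` is in a column
      have hAe : A = ∅ := Finset.card_eq_zero.mp hA0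
      have hcol : ∀ u ∈ W.erase y, u.2 = x.2 := by
        intro u hu
        have hu1 := (Finset.mem_erase.mp hu).1
        have hu2 := (Finset.mem_erase.mp hu).2
        rcases hWm u hu2 with h | h | h | h
        · rw [h]
        · rw [hAe] at h; exact absurd h (Finset.notMem_empty u)
        · exact ((hB u).mp h).2.2
        · exact absurd h hu1
      have hnu := nu_succ_le hyW.1 (Or.inr (isCol_of x.2 (her y hyW.1) hcol))
      rw [hA0] at hG hcard
      by_cases hbe : b2 = B.card
      · omega
      · have hex : ∃ u ∈ B, ¬ gen y u := by
          by_contra hcon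
          push Not at hcon
          exact hbe (by rw [hb2, Finset.filter_true_of_mem hcon])
        obtain ⟨u, huB, hyu⟩ := hex
        have hu := (hB u).mp huB
        have hu1 : u.1 = y.1 := by
          by_contra h2
          exact hyu ⟨fun e => h2 e.symm, fun e => hyW.2.2 (e.trans hu.2.2)⟩
        have huy : u ≠ y := by rintro rfl; exact hyB huB
        have hsg : 1 ≤ sg W := by
          refine sg_pos (A := {u, y}) (B := (W.erase y).erase u) ?_ ?_ ?_ ?_ ?_ ?_
          · refine isRow_of y.1 ⟨u, by simp⟩ fun v hv => ?_
            rw [Finset.mem_insert, Finset.mem_singleton] at hv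
            rcases hv with h | h
            · rw [h, hu1]
            · rw [h]
          · refine isCol_of x.2 ?_ fun v hv => hcol v (Finset.mem_of_mem_erase hv)
            refine ⟨x, ?_⟩
            rw [Finset.mem_erase, Finset.mem_erase]
            exact ⟨fun e => hxB (e ▸ huB), fun e => hxy.1 (by rw [← e]), hx⟩
          · rw [Finset.card_pair huy]
          · rw [Finset.card_erase_of_mem (Finset.mem_erase.mpr ⟨huy, hu.1⟩),
              Finset.card_erase_of_mem hyW.1]
            omega
          · rw [Finset.disjoint_left]
            intro v hv2 hv
            rw [Finset.mem_erase, Finset.mem_erase] at hv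
            rw [Finset.mem_insert, Finset.mem_singleton] at hv2
            rcases hv2 with h | h
            · exact hv.1 h
            · exact hv.2.1 h
          · ext v
            rw [Finset.mem_union, Finset.mem_erase, Finset.mem_erase, Finset.mem_insert,
              Finset.mem_singleton]
            constructor
            · rintro ((h | h) | h)
              · rw [h]; exact hu.1
              · rw [h]; exact hyW.1
              · exact h.2.2
            · intro h
              by_cases h1 : v = u
              · exact Or.inl (Or.inl h1)
              · by_cases h2 : v = y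
                · exact Or.inl (Or.inr h2)
                · exact Or.inr ⟨h1, h2, h⟩
        omega
    -- both nonempty
    have hnu := nu_le W
    by_cases hab : 3 ≤ A.card * B.card
    · omega
    · -- `{a, b} = {1, 2}`
      have hcase : (A.card = 2 ∧ B.card = 1) ∨ (A.card = 1 ∧ B.card = 2) := by
        have h1 : A.card < 3 := by
          by_contra h
          push Not at h
          nlinarith
        have h2 : B.card < 3 := by
          by_contra h
          push Not at h
          nlinarith
        have h3 : ¬ (A.card = 2 ∧ B.card = 2) := by
          rintro ⟨h, h'⟩; rw [h, h'] at hab; omega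
        omega
      rcases hcase with ⟨ha, hb⟩ | ⟨ha, hb⟩
      · rw [ha, hb] at hG hcard
        by_cases hg5 : 2 ≤ a2 ∨ 1 ≤ b2
        · rcases hg5 with h | h <;> omega
        · -- special set
          push Not at hg5
          have hsp : spR W := by
            obtain ⟨z, hz⟩ := Finset.card_eq_one.mp hb
            have hzB : z ∈ B := by rw [hz]; exact Finset.mem_singleton_self z
            have hzb := (hB z).mp hzB
            have hnz : ¬ gen y z := by
              intro h
              have : z ∈ B.filter (fun u => gen y u) := Finset.mem_filter.mpr ⟨hzB, h⟩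
              have := Finset.card_pos.mpr ⟨z, this⟩
              omega
            have hz1 : z.1 = y.1 := by
              by_contra h2
              exact hnz ⟨fun e => h2 e.symm, fun e => hyW.2.2 (e.trans hzb.2.2)⟩
            have hex : ∃ p ∈ A, ¬ gen y p := by
              by_contra hcon
              push Not at hcon
              have : a2 = A.card := by rw [ha2, Finset.filter_true_of_mem hcon]
              omega
            obtain ⟨p, hpA, hyp⟩ := hex
            have hp := (hA p).mp hpA
            have hp2 : p.2 = y.2 := by
              by_contra h2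
              exact hyp ⟨fun e => hyW.2.1 (e.trans hp.2.1), fun e => h2 e.symm⟩
            have hq : (A.erase p).card = 1 := by rw [Finset.card_erase_of_mem hpA]; omega
            obtain ⟨q, hq⟩ := Finset.card_eq_one.mp hq
            have hqe : q ∈ A.erase p := by rw [hq]; exact Finset.mem_singleton_self q
            have hqA := Finset.mem_of_mem_erase hqe
            have hqp := (Finset.mem_erase.mp hqe).1
            have hqq := (hA q).mp hqA
            refine ⟨x.1, y.1, x.2, y.2, q.2, fun e => hyW.2.1 e.symm, fun e => hyW.2.2 e.symm,
              hqq.2.2, ?_, ?_⟩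
            · intro e
              exact hqp (Prod.ext (hqq.2.1.trans hp.2.1.symm) (e.trans hp2.symm))
            · have e1 : ((x.1, x.2) : _ × _) = x := rfl
              have e2 : ((x.1, y.2) : _ × _) = p := Prod.ext hp.2.1.symm hp2.symm
              have e3 : ((y.1, x.2) : _ × _) = z := Prod.ext hz1.symm hzb.2.2.symm
              have e4 : ((y.1, y.2) : _ × _) = y := rfl
              have e5 : ((x.1, q.2) : _ × _) = q := Prod.ext hqq.2.1.symm rfl
              rw [e1, e2, e3, e4, e5]
              ext v
              simp only [Finset.mem_insert, Finset.mem_singleton]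
              constructor
              · intro hv
                rcases hWm v hv with h | h | h | h
                · exact Or.inl h
                · by_cases hvp : v = p
                  · exact Or.inr (Or.inl hvp)
                  · have : v ∈ A.erase p := Finset.mem_erase.mpr ⟨hvp, h⟩
                    rw [hq, Finset.mem_singleton] at this
                    exact Or.inr (Or.inr (Or.inr (Or.inr this)))
                · rw [hz, Finset.mem_singleton] at h
                  exact Or.inr (Or.inr (Or.inl h))
                · exact Or.inr (Or.inr (Or.inr (Or.inl h)))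
              · rintro (h | h | h | h | h)
                · rw [h]; exact hx
                · rw [h]; exact hp.1
                · rw [h]; exact hzb.1
                · rw [h]; exact hyW.1
                · rw [h]; exact hqq.1
          rw [if_pos (Or.inl hsp)]
          omega
      · rw [ha, hb] at hG hcard
        by_cases hg5 : 2 ≤ b2 ∨ 1 ≤ a2
        · rcases hg5 with h | h <;> omega
        · push Not at hg5
          have hsp : spC W := by
            obtain ⟨z, hz⟩ := Finset.card_eq_one.mp ha
            have hzA : z ∈ A := by rw [hz]; exact Finset.mem_singleton_self z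
            have hza := (hA z).mp hzA
            have hnz : ¬ gen y z := by
              intro h
              have : z ∈ A.filter (fun u => gen y u) := Finset.mem_filter.mpr ⟨hzA, h⟩
              have := Finset.card_pos.mpr ⟨z, this⟩
              omega
            have hz2 : z.2 = y.2 := by
              by_contra h2
              exact hnz ⟨fun e => hyW.2.1 (e.trans hza.2.1), fun e => h2 e.symm⟩
            have hex : ∃ p ∈ B, ¬ gen y p := by
              by_contra hcon
              push Not at hcon
              have : b2 = B.card := by rw [hb2, Finset.filter_true_of_mem hcon]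
              omega
            obtain ⟨p, hpB, hyp⟩ := hex
            have hp := (hB p).mp hpB
            have hp1 : p.1 = y.1 := by
              by_contra h2
              exact hyp ⟨fun e => h2 e.symm, fun e => hyW.2.2 (e.trans hp.2.2)⟩
            have hq : (B.erase p).card = 1 := by rw [Finset.card_erase_of_mem hpB]; omega
            obtain ⟨q, hq⟩ := Finset.card_eq_one.mp hq
            have hqe : q ∈ B.erase p := by rw [hq]; exact Finset.mem_singleton_self q
            have hqB := Finset.mem_of_mem_erase hqe
            have hqp := (Finset.mem_erase.mp hqe).1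
            have hqq := (hB q).mp hqB
            refine ⟨x.1, y.1, q.1, x.2, y.2, fun e => hyW.2.1 e.symm, fun e => hyW.2.2 e.symm,
              hqq.2.1, ?_, ?_⟩
            · intro e
              exact hqp (Prod.ext (e.trans hp1.symm) (hqq.2.2.trans hp.2.2.symm))
            · have e1 : ((x.1, x.2) : _ × _) = x := rfl
              have e2 : ((x.1, y.2) : _ × _) = z := Prod.ext hza.2.1.symm hz2.symm
              have e3 : ((y.1, x.2) : _ × _) = p := Prod.ext hp1.symm hp.2.2.symm
              have e4 : ((y.1, y.2) : _ × _) = y := rfl
              have e5 : ((q.1, x.2) : _ × _) = q := Prod.ext rfl hqq.2.2.symm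
              rw [e1, e2, e3, e4, e5]
              ext v
              simp only [Finset.mem_insert, Finset.mem_singleton]
              constructor
              · intro hv
                rcases hWm v hv with h | h | h | h
                · exact Or.inl h
                · rw [hz, Finset.mem_singleton] at h
                  exact Or.inr (Or.inr (Or.inl h))
                · by_cases hvp : v = p
                  · exact Or.inr (Or.inl hvp)
                  · have : v ∈ B.erase p := Finset.mem_erase.mpr ⟨hvp, h⟩
                    rw [hq, Finset.mem_singleton] at this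
                    exact Or.inr (Or.inr (Or.inr (Or.inr this)))
                · exact Or.inr (Or.inr (Or.inr (Or.inl h)))
              · rintro (h | h | h | h | h)
                · rw [h]; exact hx
                · rw [h]; exact hp.1
                · rw [h]; exact hza.1
                · rw [h]; exact hyW.1
                · rw [h]; exact hqq.1
          rw [if_pos (Or.inr hsp)]
          omega

end
end Pool.Agent.R793.SC
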